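import Pool.Agent.NPC.Dec
import Pool.Agent.R534.MF.Final

/-!
# Minimal false QCNF formulas of fixed deficiency can be recognised in polynomial time

The main steps of the proof:

* every formula of `MF(k)` has maximal deficiency `k`, and a bound for the maximal deficiency can be
  tested by bipartite matching;
* the truth of a formula of bounded maximal deficiency depends only on a subformula `F'` which is
  the union of boundedly many families that are minimal unsatisfiable after the universal literals
  and the variables of the preceding families have been deleted; these families are found with a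
  polynomial-time satisfiability test for propositional formulas of bounded maximal deficiency;
* if `F'` is true then the existential player has a strategy which branches at boundedly many
  universal variables only, and in every branch all the existential variables are matched to
  different clauses which they satisfy;
* minimal unsatisfiable families of bounded deficiency have a tree decomposition such that every
  matching of the variables into the clauses has boundedly many edges across each cut of the tree;
  hence such strategies can be found by dynamic programming.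
-/

namespace Pool.Agent.Results.MP_925109_lc.MFkInP

open Pool.Agent.NPC

/-- A clause: the list of its literals.  The literal `(x, true)` is the variable `x` and the literal
`(x, false)` is its negation. -/
abbrev Clause : Type := List (ℕ × Bool)

/-- A QCNF formula: its quantifier list, in order, and its matrix.  The entry `(true, x)` stands for
`∃ x` and `(false, x)` stands for `∀ x`. -/
abbrev QCNF : Type := List (Bool × ℕ) × List Clause

/-- The truth value of the formula with the given quantifier list and matrix, under the assignment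
`σ` of the free variables. -/
def Truth : List (Bool × ℕ) → List Clause → (ℕ → Bool) → Prop
  | [], F, σ => ∀ C ∈ F, ∃ l ∈ C, σ l.1 = l.2
  | (true, x) :: p, F, σ => ∃ b, Truth p F (Function.update σ x b)
  | (false, x) :: p, F, σ => ∀ b, Truth p F (Function.update σ x b)

/-- A closed formula is true. -/
def IsTrue (Φ : QCNF) : Prop := ∀ σ, Truth Φ.1 Φ.2 σ

/-- The quantified variables are distinct, all the variables of the matrix are quantified, and the
clauses are distinct (as sets of literals). -/
def WellFormed (Φ : QCNF) : Prop :=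
  (Φ.1.map Prod.snd).Nodup ∧ (∀ C ∈ Φ.2, ∀ l ∈ C, l.1 ∈ Φ.1.map Prod.snd) ∧
    (Φ.2.map List.toFinset).Nodup

/-- The variable `x` occurs in the matrix. -/
def Occurs (Φ : QCNF) (x : ℕ) : Prop := ∃ C ∈ Φ.2, ∃ b, (x, b) ∈ C

/-- `Φ` is minimal false: it is false, and deleting any clause makes it true. -/
def MinimalFalse (Φ : QCNF) : Prop :=
  ¬ IsTrue Φ ∧ ∀ C ∈ Φ.2, IsTrue (Φ.1, Φ.2.erase C)

/-- The deficiency: the number of clauses minus the number of existential variables. -/
def deficiency (Φ : QCNF) : ℤ := (Φ.2.length : ℤ) - (Φ.1.filter (fun q => q.1)).length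

/-- `MF(k)`, with the convention that all the quantified variables occur in the matrix. -/
def MF (k : ℤ) (Φ : QCNF) : Prop :=
  WellFormed Φ ∧ (∀ x ∈ Φ.1.map Prod.snd, Occurs Φ x) ∧ MinimalFalse Φ ∧ deficiency Φ = k

/-- The variant of `MF(k)` in which quantified variables need not occur in the matrix, but only the
existential variables that occur are counted. -/
def MFUnused (k : ℤ) (Φ : QCNF) : Prop :=
  WellFormed Φ ∧ MinimalFalse Φ ∧
    (Φ.2.length : ℤ) - {x | (true, x) ∈ Φ.1 ∧ Occurs Φ x}.ncard = k

open Pool.Agent.R534.MF Finset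

theorem truth_iff : ∀ (p : List (Bool × ℕ)) (_ : (p.map Prod.snd).Nodup) (F : List Clause)
    (σ : ℕ → Bool), Truth p F σ ↔ QT cl0 p (F.toFinset.filter
      (fun C => ∀ l ∈ C, l.1 ∈ p.map Prod.snd ∨ σ l.1 ≠ l.2)) := by
  intro p
  induction p with
  | nil =>
    intro _ F σ
    rw [Truth, QT, Finset.filter_eq_empty_iff]
    constructor
    · intro h C hC hno
      obtain ⟨l, hl, hl'⟩ := h C (List.mem_toFinset.1 hC)
      rcases hno l hl with h1 | h1
      · simp at h1
      · exact h1 hl'
    · intro h C hC
      have h1 := h (List.mem_toFinset.2 hC)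
      push Not at h1
      obtain ⟨l, hl, _, hl'⟩ := h1
      exact ⟨l, hl, hl'⟩
  | cons a p ih =>
    intro hn F σ
    obtain ⟨q, x⟩ := a
    rw [List.map_cons, List.nodup_cons] at hn
    have key : ∀ b, (F.toFinset.filter (fun C => ∀ l ∈ C,
        l.1 ∈ ((q, x) :: p).map Prod.snd ∨ σ l.1 ≠ l.2)).filter (fun C => (x, b) ∉ cl0 C) =
        F.toFinset.filter (fun C => ∀ l ∈ C, l.1 ∈ p.map Prod.snd ∨
          Function.update σ x b l.1 ≠ l.2) := by
      intro b
      ext C
      simp only [mem_filter, cl0, List.mem_toFinset, List.map_cons, List.mem_cons]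
      constructor
      · rintro ⟨⟨h1, h2⟩, h3⟩
        refine ⟨h1, fun l hl => ?_⟩
        by_cases hlx : l.1 = x
        · right
          rw [hlx, Function.update_self]
          rintro rfl
          apply h3
          rw [← hlx]
          exact hl
        · rw [Function.update_of_ne hlx]
          rcases h2 l hl with (h4 | h4) | h4
          · exact absurd h4 hlx
          · exact Or.inl h4
          · exact Or.inr h4
      · rintro ⟨h1, h2⟩
        refine ⟨⟨h1, fun l hl => ?_⟩, fun hxb => ?_⟩
        · by_cases hlx : l.1 = x
          · exact Or.inl (Or.inl hlx)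
          · rcases h2 l hl with h3 | h3
            · exact Or.inl (Or.inr h3)
            · rw [Function.update_of_ne hlx] at h3
              exact Or.inr h3
        · rcases h2 _ hxb with h3 | h3
          · exact hn.1 h3
          · simp at h3
    rw [QT]
    cases q with
    | true =>
      rw [Truth, if_pos rfl]
      refine exists_congr (fun b => ?_)
      rw [ih hn.2, key]
    | false =>
      rw [Truth, if_neg (by simp)]
      refine forall_congr' (fun b => ?_)
      rw [ih hn.2, key]

theorem isTrue_iff {p : List (Bool × ℕ)} {F : List Clause} (hn : (p.map Prod.snd).Nodup)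
    (hv : ∀ C ∈ F, ∀ l ∈ C, l.1 ∈ p.map Prod.snd) :
    IsTrue (p, F) ↔ QT cl0 p F.toFinset := by
  have h1 : ∀ σ : ℕ → Bool, F.toFinset.filter
      (fun C => ∀ l ∈ C, l.1 ∈ p.map Prod.snd ∨ σ l.1 ≠ l.2) = F.toFinset := by
    intro σ
    rw [Finset.filter_eq_self]
    intro C hC l hl
    exact Or.inl (hv C (List.mem_toFinset.1 hC) l hl)
  unfold IsTrue
  simp only [truth_iff p hn F, h1]
  exact ⟨fun h => h (fun _ => true), fun h _ => h⟩

theorem minimalFalse_iff {p : List (Bool × ℕ)} {F : List Clause} (hwf : WellFormed (p, F)) :
    MinimalFalse (p, F) ↔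
      ¬ QT cl0 p F.toFinset ∧ ∀ C ∈ F, QT cl0 p (F.toFinset.erase C) := by
  obtain ⟨hn, hv, hs⟩ := hwf
  simp only at hn hv hs
  have hF : F.Nodup := hs.of_map _
  unfold MinimalFalse
  rw [isTrue_iff hn hv]
  refine and_congr_right (fun _ => ?_)
  refine forall_congr' (fun C => forall_congr' (fun _ => ?_))
  have h1 : (F.erase C).toFinset = F.toFinset.erase C := by
    ext D
    rw [List.mem_toFinset, hF.mem_erase_iff, mem_erase, List.mem_toFinset]
  rw [isTrue_iff hn (fun D hD => hv D (List.mem_of_mem_erase hD)), h1]

theorem unused_iff (k : ℕ) (Φ : QCNF) : MFUnused k Φ ↔ mfT k Φ.1 Φ.2 = true := by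
  obtain ⟨p, F⟩ := Φ
  rw [mfT_iff]
  unfold MFUnused
  have h1 : WellFormed (p, F) ↔ ((p.map Prod.snd).Nodup ∧
      (∀ C ∈ F, ∀ l ∈ C, l.1 ∈ p.map Prod.snd) ∧ (F.map List.toFinset).Nodup) := Iff.rfl
  rw [← h1]
  refine and_congr_right (fun hwf => ?_)
  rw [minimalFalse_iff hwf]
  refine and_congr_right (fun _ => ?_)
  have h2 : {x | (true, x) ∈ (p, F).1 ∧ Occurs (p, F) x} =
      ((oc cl0 (exV p) F.toFinset : Finset ℕ) : Set ℕ) := by
    ext x
    rw [Set.mem_ofPred_eq, mem_coe, mem_oc, mem_exV]
    simp only [Occurs, cl0, List.mem_toFinset]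
  rw [h2, Set.ncard_coe_finset]
  simp only
  omega

theorem mf_iff (k : ℕ) (Φ : QCNF) : MF k Φ ↔
    (mfT k Φ.1 Φ.2 && allT (Φ.1.map Prod.snd) Φ.2) = true := by
  rw [Bool.and_eq_true, ← unused_iff, allT_iff]
  obtain ⟨p, F⟩ := Φ
  unfold MF MFUnused
  have key : WellFormed (p, F) → (∀ x ∈ (p, F).1.map Prod.snd, Occurs (p, F) x) →
      {x | (true, x) ∈ (p, F).1 ∧ Occurs (p, F) x}.ncard = (p.filter (fun q => q.1)).length := by
    intro hwf hall
    have h1 : {x | (true, x) ∈ (p, F).1 ∧ Occurs (p, F) x} = (((exL p).toFinset : Finset ℕ) :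
        Set ℕ) := by
      ext x
      rw [Set.mem_ofPred_eq, mem_coe, exL_toFinset, mem_exV]
      constructor
      · exact fun h => h.1
      · exact fun h => ⟨h, hall x (List.mem_map.2 ⟨_, h, rfl⟩)⟩
    rw [h1, Set.ncard_coe_finset, List.toFinset_card_of_nodup (exL_nodup hwf.1)]
    unfold exL
    rw [List.length_map]
  constructor
  · rintro ⟨h1, h2, h3, h4⟩
    refine ⟨⟨h1, h3, ?_⟩, h2⟩
    rw [key h1 h2]
    exact h4
  · rintro ⟨⟨h1, h3, h4⟩, h2⟩
    refine ⟨h1, h2, h3, ?_⟩
    rw [key h1 h2] at h4
    exact h4

/-- **For every fixed `k` the class `MF(k)` of the minimal false QCNF formulas of deficiency `k` is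
recognisable in polynomial time.** -/
theorem result : ∀ k : ℕ, InPP (MF k) ∧ InPP (MFUnused k) := by
  intro k
  constructor
  · refine inPP_of (d := fun Φ : QCNF => mfT k Φ.1 Φ.2 && allT (Φ.1.map Prod.snd) Φ.2) ?_
      (mf_iff k)
    fun_prop
  · refine inPP_of (d := fun Φ : QCNF => mfT k Φ.1 Φ.2) ?_ (unused_iff k)
    fun_prop

end Pool.Agent.Results.MP_925109_lc.MFkInP
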